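import Pool.Agent.Helper45.AV.TreeD

/-!
# Project AV: fibres are finite
-/

set_option autoImplicit false

namespace Pool.Agent.Helper45.AV

open MvPolynomial
open Pool.Agent.Helper33.SS (ev)

variable {ν : ℕ}

/-- The monomials of degree at most `N` span, modulo the polynomials which vanish on `S`, all
polynomials, if each `X_k ^ (M + d)` is on `S` equal to a polynomial of degree at most `M`. -/
theorem mono_mem {S : Set (Fin (ν + 1) → ℂ)} {M d : ℕ} (hd : 0 < d)
    {r : Fin (ν + 1) → MvPolynomial (Fin (ν + 1)) ℂ} (hr : ∀ k, (r k).totalDegree ≤ M)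
    (hS : ∀ y ∈ S, ∀ k, eval y (X k ^ (M + d)) = eval y (r k)) :
    ∀ (n : ℕ) (a : Fin (ν + 1) →₀ ℕ), a.degree ≤ n →
      ∃ w ∈ Submodule.span ℂ ((fun b : Fin (ν + 1) →₀ ℕ => monomial b (1 : ℂ)) ''
        {b | b.degree ≤ (ν + 1) * (M + d)}), ∀ y ∈ S, eval y (monomial a (1 : ℂ)) = eval y w := by
  intro n
  induction n with
  | zero =>
    intro a ha
    exact ⟨monomial a 1, Submodule.subset_span ⟨a, show a.degree ≤ _ by omega, rfl⟩,
      fun y _ => rfl⟩
  | succ n ih =>
    intro a ha
    by_cases h0 : a.degree ≤ (ν + 1) * (M + d)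
    · exact ⟨monomial a 1, Submodule.subset_span ⟨a, h0, rfl⟩, fun y _ => rfl⟩
    · have h1 : ∃ k, M + d ≤ a k := by
        by_contra hcon
        push Not at hcon
        apply h0
        rw [Finsupp.degree_eq_sum]
        calc ∑ i, a i ≤ ∑ _i : Fin (ν + 1), (M + d) :=
              Finset.sum_le_sum fun i _ => (hcon i).le
          _ = (ν + 1) * (M + d) := by simp
      obtain ⟨k, hk⟩ := h1
      set a' : Fin (ν + 1) →₀ ℕ := a - Finsupp.single k (M + d) with ha'
      have h2 : a = a' + Finsupp.single k (M + d) := by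
        rw [ha', tsub_add_cancel_of_le]
        exact Finsupp.single_le_iff.2 hk
      have h3 : a'.degree + (M + d) = a.degree := by
        conv_rhs => rw [h2]
        simp
      set p : MvPolynomial (Fin (ν + 1)) ℂ := monomial a' 1 * r k with hp
      have h4 : p.totalDegree ≤ n := by
        refine (totalDegree_mul _ _).trans ?_
        have h5 : (monomial a' (1 : ℂ)).totalDegree ≤ a'.degree := by
          rw [totalDegree_monomial _ one_ne_zero, Finsupp.degree_eq_sum]
          exact (Finsupp.sum_fintype _ _ (fun _ => rfl)).le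
        have h6 := hr k
        omega
      have h7 : ∀ y ∈ S, eval y (monomial a (1 : ℂ)) = eval y p := by
        intro y hy
        rw [hp, map_mul, ← hS y hy k, ← map_mul]
        congr 1
        rw [h2, ← mul_one (1 : ℂ), ← monomial_mul, X_pow_eq_monomial]
        simp
      have h8 : ∀ b ∈ p.support, b.degree ≤ n := by
        intro b hb
        refine le_trans ?_ h4
        have h9 := le_totalDegree hb
        rw [Finsupp.degree_eq_sum]
        rw [Finsupp.sum_fintype _ _ (fun _ => rfl)] at h9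
        exact h9
      choose! w hw hw' using ih
      refine ⟨∑ b ∈ p.support, coeff b p • w b,
        Submodule.sum_mem _ fun b hb => Submodule.smul_mem _ _ (hw b (h8 b hb)), ?_⟩
      intro y hy
      rw [h7 y hy]
      conv_lhs => rw [p.as_sum]
      rw [map_sum, map_sum]
      refine Finset.sum_congr rfl fun b hb => ?_
      rw [smul_eval, ← hw' b (h8 b hb) y hy, ← smul_eval, smul_monomial, smul_eq_mul, mul_one]

/-- Fibres are finite: modulo `f_i - z_i` the power `X_j ^ (M + d) = ∑ q_ji f_i` is a polynomial of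
degree `M` (Nullstellensatz, `Pool.Agent.Helper36.exists_nullstellensatz`), so the quotient ring
has finite dimension. -/
theorem finite_fibre {d : ℕ} (hd : 0 < d) {f : Fin (ν + 1) → MvPolynomial (Fin (ν + 1)) ℂ}
    (hf : ∀ i, (f i).IsHomogeneous d)
    (hnz : ∀ x : Fin (ν + 1) → ℂ, (∀ i, eval x (f i) = 0) → x = 0) (z : Fin (ν + 1) → ℂ) :
    {y | ev f y = z}.Finite := by
  classical
  obtain ⟨M, q, hq, hq'⟩ := Pool.Agent.Helper36.exists_nullstellensatz (K := ℂ) (L := ℂ) f hf
    (fun x hx => hnz x fun i => by simpa [MvPolynomial.aeval_eq_eval] using hx i)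
  set S : Set (Fin (ν + 1) → ℂ) := {y | ev f y = z} with hSdef
  have hr : ∀ k, (∑ j, q (k, j) * C (z j)).totalDegree ≤ M := by
    intro k
    refine totalDegree_finsetSum_le fun j _ => ?_
    refine (totalDegree_mul _ _).trans ?_
    rw [totalDegree_C, add_zero]
    exact (hq (k, j)).totalDegree_le
  have hS : ∀ y ∈ S, ∀ k, eval y (X k ^ (M + d)) = eval y (∑ j, q (k, j) * C (z j)) := by
    intro y hy k
    rw [← hq' k, map_sum, map_sum]
    refine Finset.sum_congr rfl fun j _ => ?_
    rw [map_mul, map_mul, eval_C]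
    congr 1
    exact congrFun hy j
  have hmono := mono_mem hd hr hS
  set W := Submodule.span ℂ ((fun b : Fin (ν + 1) →₀ ℕ => monomial b (1 : ℂ)) ''
        {b | b.degree ≤ (ν + 1) * (M + d)}) with hW
  have hfin : ((fun b : Fin (ν + 1) →₀ ℕ => monomial b (1 : ℂ)) ''
        {b | b.degree ≤ (ν + 1) * (M + d)}).Finite :=
    (Finsupp.finite_of_degree_le _).image _
  have : Module.Finite ℂ W := Module.Finite.span_of_finite ℂ hfin
  have hred : ∀ p : MvPolynomial (Fin (ν + 1)) ℂ, ∃ w ∈ W, ∀ y ∈ S, eval y p = eval y w := by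
    intro p
    choose w hw hw' using fun b : Fin (ν + 1) →₀ ℕ => hmono b.degree b le_rfl
    refine ⟨∑ b ∈ p.support, coeff b p • w b,
      Submodule.sum_mem _ fun b _ => Submodule.smul_mem _ _ (hw b), ?_⟩
    intro y hy
    conv_lhs => rw [p.as_sum]
    rw [map_sum, map_sum]
    refine Finset.sum_congr rfl fun b _ => ?_
    rw [smul_eval, ← hw' b y hy, ← smul_eval, smul_monomial, smul_eq_mul, mul_one]
  have hli : LinearIndependent ℂ (fun y : S =>
      ((aeval y.1 : MvPolynomial (Fin (ν + 1)) ℂ →ₐ[ℂ] ℂ).toLinearMap).domRestrict W) := by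
    have h0 : LinearIndependent ℂ (fun y : S =>
        (aeval y.1 : MvPolynomial (Fin (ν + 1)) ℂ →ₐ[ℂ] ℂ).toLinearMap) := by
      refine (linearIndependent_algHom_toLinearMap ℂ (MvPolynomial (Fin (ν + 1)) ℂ) ℂ).comp
        (fun y : S => (aeval y.1 : MvPolynomial (Fin (ν + 1)) ℂ →ₐ[ℂ] ℂ)) ?_
      intro y y' hyy
      apply Subtype.ext
      funext i
      have := DFunLike.congr_fun hyy (X i)
      simpa using this
    rw [linearIndependent_iff'] at h0 ⊢
    intro s g hg
    refine h0 s g ?_
    apply LinearMap.ext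
    intro p
    obtain ⟨w, hw, hw'⟩ := hred p
    have h1 := LinearMap.congr_fun hg ⟨w, hw⟩
    simp only [LinearMap.sum_apply, LinearMap.smul_apply, LinearMap.domRestrict_apply,
      AlgHom.toLinearMap_apply, LinearMap.zero_apply, MvPolynomial.aeval_eq_eval] at h1 ⊢
    rw [← h1]
    refine Finset.sum_congr rfl fun y _ => ?_
    congr 1
    exact hw' y.1 y.2
  have hfinS : Finite S := LinearIndependent.finite hli
  exact Set.toFinite S

theorem Lv_finite {d : ℕ} (hd : 0 < d) {f : Fin (ν + 1) → MvPolynomial (Fin (ν + 1)) ℂ}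
    (hf : ∀ i, (f i).IsHomogeneous d)
    (hnz : ∀ x : Fin (ν + 1) → ℂ, (∀ i, eval x (f i) = 0) → x = 0)
    {Z : Set (Fin (ν + 1) → ℂ)} (hZ : Z.Finite) (j : ℕ) : (Lv f Z j).Finite := by
  have key : ∀ {A : Set (Fin (ν + 1) → ℂ)}, A.Finite → {y | ev f y ∈ A}.Finite := by
    intro A hA
    have h1 : {y | ev f y ∈ A} = ⋃ z ∈ A, {y | ev f y = z} := by
      ext y
      simp
    rw [h1]
    exact hA.biUnion fun z _ => finite_fibre hd hf hnz z
  induction j with
  | zero => exact (key hZ).subset fun y hy => hy.1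
  | succ j ih => exact key ih

end Pool.Agent.Helper45.AV
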